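import Pool.Agent.Helper46.C2.St
import Pool.Agent.Helper60.DZ2.M_Red

/-! Project C2 (MP_b3ce06_al), module IN (adapted from project AX, module IN) -/

set_option autoImplicit false

namespace Pool.Agent.Helper2.C2

open Pool.Agent.Helper46.C2
open Pool.Agent.Helper43.GD (Sys Fr Gn FinP IsHat)

private lemma rf {k : ℕ} {L : Type} [CommRing L] {x : Lˣ} (h1 : StLF) (h : R2 k L x) :
    Pool.Agent.Helper43.AX.RF L x := by
  refine ⟨h1 k L x h, ?_⟩
  have h2 : ((x : L) ^ 2 - 1) = ((x : L) ^ k) ^ 2 := by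
    rw [h.xk]
    linear_combination (-(x : L) - 1) * h.two
  rw [h2]
  exact (x.isUnit.pow _).pow _

theorem hIN (h1 : StLF) (h2 : StC4) (h3 : StUL) (h4 : StCEL)
    (h5 : Pool.Agent.Helper43.GD.StHAT) (h6 : Pool.Agent.Helper43.AX.StAU)
    (h7 : Pool.Agent.Helper43.AX.StWM) : StIN := by
  intro k L _ x hF A _ s' hw1 hx
  have hR := rf h1 hF
  obtain ⟨H, _, s, hs⟩ := h5 L x
  have hP := h7.1 L H x s hR hs.1 hs.2.1 hs.2.2.1
  obtain ⟨Q, hxU, hQE, hQF⟩ := h6 L H x s hR hs
  have hall := h3 k L _ Q x hF hxU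
  have hcard : ∀ I : Ideal L, I.IsMaximal → 4 ≤ Nat.card (L ⧸ I) := by
    intro I hI
    obtain ⟨f, hf, hc⟩ := h2 k L x hF I hI
    rw [hc]
    calc 4 = 2 ^ 2 := by norm_num
      _ ≤ 2 ^ f := Nat.pow_le_pow_right (by norm_num) hf
  have hfin : Finite Q.gp := h4 L _ Q hR.fin hcard hall
  have hmem : ∀ g : H, MulAut.conj g ∈ Q.gp := by
    have hle : s.gp ≤ Q.gp.comap MulAut.conj := by
      rw [Sys.gp, Subgroup.closure_le]
      rintro y (⟨a, rfl⟩ | ⟨a, rfl⟩)
      · change MulAut.conj (s.E a) ∈ Q.gp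
        rw [← hQE]
        exact Q.E_mem a
      · change MulAut.conj (s.F a) ∈ Q.gp
        rw [← hQF]
        exact Q.F_mem a
    intro g
    have : g ∈ s.gp := by rw [hs.2.2.1]; trivial
    exact hle this
  have hfc : Finite (H ⧸ Subgroup.center H) := by
    apply Finite.of_injective
      (fun q : H ⧸ Subgroup.center H => (⟨MulAut.conj q.out, hmem _⟩ : Q.gp))
    intro p q hpq
    have h2 : MulAut.conj p.out = MulAut.conj q.out := congrArg Subtype.val hpq
    have h3 : ((p.out : H) : H ⧸ Subgroup.center H) = ((q.out : H) : H ⧸ Subgroup.center H) := by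
      rw [QuotientGroup.eq, Subgroup.mem_center_iff]
      intro g
      have h4 : p.out * g * (p.out)⁻¹ = q.out * g * (q.out)⁻¹ := by
        have := congrArg (fun f : MulAut H => f g) h2
        simpa [MulAut.conj_apply] using this
      have h5 : g * (p.out⁻¹ * q.out) = p.out⁻¹ * (p.out * g * (p.out)⁻¹) * q.out := by group
      rw [h5, h4]
      group
    simpa using h3
  have hH : Finite H := Pool.Agent.Helper60.DZ2.Red_schur hP
  obtain ⟨φ, hφE, hφF⟩ := hs.2.2.2 A s' hw1 hx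
  have hle : s'.gp ≤ φ.range := by
    rw [Sys.gp, Subgroup.closure_le]
    rintro y (⟨a, rfl⟩ | ⟨a, rfl⟩)
    · exact ⟨s.E a, hφE a⟩
    · exact ⟨s.F a, hφF a⟩
  have hr : (φ.range : Set A).Finite := by
    rw [MonoidHom.coe_range]
    exact Set.finite_range φ
  exact (hr.subset hle).to_subtype

end Pool.Agent.Helper2.C2
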