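import Pool.Agent.Helper46.C2.St

/-! Project C2 (MP_b3ce06_al), module TG (adapted from project GD, module TG). -/

set_option autoImplicit false

namespace Pool.Agent.Helper2.C2

open Pool.Agent.Helper46.C2
open Pool.Agent.Helper43.GD (Gn cj)
open Matrix

section SL

variable {K : Type} [Field K]

/-- upper transvection -/
def EE (c : K) : SpecialLinearGroup (Fin 2) K := ⟨!![1, c; 0, 1], by simp [Matrix.det_fin_two]⟩

/-- the Weyl element -/
def WW (K : Type) [Field K] : SpecialLinearGroup (Fin 2) K :=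
  ⟨!![0, -1; 1, 0], by rw [Matrix.det_fin_two]; simp⟩

/-- diagonal matrices -/
def DD (s : Kˣ) : SpecialLinearGroup (Fin 2) K :=
  ⟨!![((s⁻¹ : Kˣ) : K), 0; 0, (s : K)], by rw [Matrix.det_fin_two]; simp⟩

private lemma EE_add (a b : K) : EE (a + b) = EE a * EE b := by
  apply Subtype.ext
  ext i j
  fin_cases i <;> fin_cases j <;> simp [EE, Matrix.mul_apply, Fin.sum_univ_two, add_comm]

private lemma EE_zero : EE (0 : K) = 1 := by
  apply Subtype.ext
  ext i j
  fin_cases i <;> fin_cases j <;> simp [EE]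

private lemma EE_neg (a : K) : EE (-a) = (EE a)⁻¹ := by
  rw [eq_inv_iff_mul_eq_one, ← EE_add, neg_add_cancel, EE_zero]

private lemma braid : EE (1 : K) * WW K * EE 1 = WW K * EE (-1) * (WW K)⁻¹ := by
  rw [eq_mul_inv_iff_mul_eq]
  apply Subtype.ext
  ext i j
  fin_cases i <;> fin_cases j <;>
    simp [EE, WW, Matrix.mul_apply, Fin.sum_univ_two]

private lemma DD_conj (s : Kˣ) (c : K) : (DD s)⁻¹ * EE c * DD s = EE ((s : K) ^ 2 * c) := by
  rw [mul_assoc, inv_mul_eq_iff_eq_mul]
  apply Subtype.ext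
  ext i j
  fin_cases i <;> fin_cases j <;>
    simp [DD, EE, Matrix.mul_apply, Fin.sum_univ_two]
  field_simp

private lemma WW_conj (s : Kˣ) : (WW K)⁻¹ * DD s * WW K = (DD s)⁻¹ := by
  rw [eq_inv_iff_mul_eq_one, mul_assoc, mul_assoc, inv_mul_eq_iff_eq_mul, mul_one]
  apply Subtype.ext
  ext i j
  fin_cases i <;> fin_cases j <;> simp [DD, WW, Matrix.mul_apply, Fin.sum_univ_two]

private lemma cj_eq (s : Kˣ) (c : K) (n : ℕ) :
    cj (EE c) (DD s) (n : ℤ) = EE (((s : K) ^ 2) ^ n * c) := by
  unfold cj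
  rw [_root_.zpow_neg, zpow_natCast]
  induction n with
  | zero => simp
  | succ n ih =>
    have : ((DD s) ^ (n + 1))⁻¹ * EE c * (DD s) ^ (n + 1) =
        (DD s)⁻¹ * (((DD s) ^ n)⁻¹ * EE c * (DD s) ^ n) * DD s := by
      rw [pow_succ]; group
    rw [this, ih, DD_conj]
    congr 1
    ring

/-- generation of `SL(2,K)` -/
private lemma gen (P : Subgroup (SpecialLinearGroup (Fin 2) K)) (hE : ∀ c : K, EE c ∈ P)
    (hW : WW K ∈ P) : P = ⊤ := by
  rw [Subgroup.eq_top_iff']
  have key : ∀ g : SpecialLinearGroup (Fin 2) K, g.1 1 0 ≠ 0 → g ∈ P := by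
    intro g hg
    have hdet := g.2
    rw [Matrix.det_fin_two] at hdet
    have hF : WW K * EE (-(g.1 1 0)) * (WW K)⁻¹ ∈ P :=
      P.mul_mem (P.mul_mem hW (hE _)) (P.inv_mem hW)
    have hF2 : WW K * EE (-(g.1 1 0)) * (WW K)⁻¹ =
        ⟨!![1, 0; g.1 1 0, 1], by simp [Matrix.det_fin_two]⟩ := by
      rw [mul_inv_eq_iff_eq_mul]
      apply Subtype.ext
      ext i j
      fin_cases i <;> fin_cases j <;>
        simp [EE, WW, Matrix.mul_apply, Fin.sum_univ_two]
    have : g = EE ((g.1 0 0 - 1) * (g.1 1 0)⁻¹) * (WW K * EE (-(g.1 1 0)) * (WW K)⁻¹) *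
        EE ((g.1 1 1 - 1) * (g.1 1 0)⁻¹) := by
      rw [hF2]
      apply Subtype.ext
      ext i j
      fin_cases i <;> fin_cases j <;>
        simp [EE, Matrix.mul_apply, Fin.sum_univ_two]
      · field_simp
        ring
      · field_simp
        linear_combination -hdet
      · field_simp
        ring
    rw [this]
    exact P.mul_mem (P.mul_mem (hE _) hF) (hE _)
  intro g
  by_cases hg : g.1 1 0 = 0
  · have h1 : WW K * g ∈ P := by
      apply key
      have hdet := g.2
      rw [Matrix.det_fin_two, hg, mul_zero, sub_zero] at hdet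
      have : (WW K * g).1 1 0 = g.1 0 0 := by
        simp [WW, Matrix.mul_apply, Fin.sum_univ_two]
      rw [this]
      exact left_ne_zero_of_mul_eq_one hdet
    exact (P.mul_mem_cancel_left hW).1 h1
  · exact key g hg

end SL

/-- Module TG. -/
theorem hTG (h1 : StTX) : StTG := by
  intro n hn
  obtain ⟨k, x, hk, hxk, hG⟩ := h1 n hn
  refine ⟨k, hk, ?_⟩
  have h2 : (2 : GaloisField 2 n) = 0 := by
    have := CharP.cast_eq_zero (GaloisField 2 n) 2
    exact_mod_cast this
  have hneg : ∀ y : GaloisField 2 n, -y = y := by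
    intro y
    linear_combination (-y) * h2
  have hsq : IsSquare (x : GaloisField 2 n) :=
    FiniteField.isSquare_of_char_two ((ringChar.eq_iff).2 inferInstance) _
  obtain ⟨μ, hμ⟩ := hsq
  have hμ0 : μ ≠ 0 := by
    rintro rfl
    rw [mul_zero] at hμ
    exact x.ne_zero hμ
  set s : (GaloisField 2 n)ˣ := Units.mk0 μ hμ0 with hs
  have hs2 : (s : GaloisField 2 n) ^ 2 = (x : GaloisField 2 n) := by
    rw [hs, Units.val_mk0, hμ, pow_two]
  have hcj : ∀ (m : ℕ) (c : GaloisField 2 n), cj (EE c) (DD s) (m : ℤ) = EE ((x : GaloisField 2 n) ^ m * c) := by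
    intro m c
    rw [cj_eq, hs2]
  refine ⟨SpecialLinearGroup (Fin 2) (GaloisField 2 n), inferInstance, EE 1, WW _, DD s,
    ⟨?_, ?_, ?_⟩, ?_⟩
  · rw [braid, hneg]
  · exact WW_conj s
  · have e1 := hcj 1 1
    rw [Nat.cast_one] at e1
    rw [e1, hcj, ← EE_add, mul_one, mul_one, pow_one, hxk]
    congr 1
    linear_combination (-1) * h2
  · intro G _ f ga gw gt hga hgw hgt hcl
    have hE1 : ∀ c : GaloisField 2 n, EE c ∈ f.range := by
      let Z : AddSubgroup (GaloisField 2 n) :=
        { carrier := {c | EE c ∈ f.range}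
          zero_mem' := by
            show EE 0 ∈ f.range
            rw [EE_zero]
            exact f.range.one_mem
          add_mem' := by
            intro b c hb hc
            show EE (b + c) ∈ f.range
            rw [EE_add]
            exact f.range.mul_mem hb hc
          neg_mem' := by
            intro b hb
            show EE (-b) ∈ f.range
            rw [EE_neg]
            exact f.range.inv_mem hb }
      apply hG Z
      · show EE 1 ∈ f.range
        rw [← hga]
        exact ⟨ga, rfl⟩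
      · intro y hy
        show EE ((x : GaloisField 2 n) * y) ∈ f.range
        have e1 := hcj 1 y
        rw [Nat.cast_one, pow_one] at e1
        rw [← e1]
        obtain ⟨gy, hgy⟩ := hy
        refine ⟨cj gy gt 1, ?_⟩
        unfold cj
        rw [map_mul, map_mul, map_zpow, map_zpow, hgt, hgy]
    have htop : f.range = ⊤ := gen _ hE1 (by rw [← hgw]; exact ⟨gw, rfl⟩)
    have hsurj : Function.Surjective f := MonoidHom.range_eq_top.1 htop
    refine ⟨⊤, inferInstance, (QuotientGroup.mk' (Subgroup.center (SpecialLinearGroup (Fin 2)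
        (GaloisField 2 n)))).comp (f.comp (⊤ : Subgroup G).subtype), ?_⟩
    intro q
    obtain ⟨g, rfl⟩ := QuotientGroup.mk'_surjective _ q
    obtain ⟨y, hy⟩ := hsurj g
    refine ⟨⟨y, Subgroup.mem_top y⟩, ?_⟩
    show QuotientGroup.mk' _ (f y) = _
    rw [hy]

end Pool.Agent.Helper2.C2
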